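import Mathlib
import Pool.Agent.Helper53.Cover.Final

/-!
# Quantitative form: the moduli divisible by 2, 9 or 15 carry weight at least 61/1000

Beside the frozen statement S17675.
-/

set_option autoImplicit false

namespace Pool.Agent.Results.MP_88d7a5_nt.QuantitativeCovering

open Finset Function Pool.Agent.Helper53.Cover

section
variable {e : ℕ} {δ : ℕ → ℚ} {B : ℕ → Om → Prop}

private lemma one_le_loss' (h0 : ∀ n, 0 ≤ δ n) (h1 : ∀ n, δ n < 1)
    (hB : ∀ n, Dep (n + 1) (B n)) (N : ℕ) (T : Finset ℕ) (r : ℕ → ℤ)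
    (hcov : ∀ x, (∃ n, n < N ∧ n.Prime ∧ B n x) ∨ ∃ m ∈ T, inBox m (r m) N x) :
    1 ≤ ∑ n ∈ (range N).filter Nat.Prime,
      (1 / (1 - δ n)) * P e (DD e δ B) n (fun x => max (alpha e B n x - δ n) 0) +
      ∑ m ∈ T, P e (DD e δ B) N (fun x => ind (inBox m (r m) N x)) := by
  have havg := fun n x hn => avg_DD (e := e) (B := B) h0 h1 n x hn
  have hPadd : ∀ F G : Om → ℚ, P e (DD e δ B) N (fun x => F x + G x) = P e (DD e δ B) N F + P e (DD e δ B) N G := by
    intro F G
    have := P_sum (e := e) (D := DD e δ B) (Finset.univ : Finset Bool) N (fun b => if b = true then F else G)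
    simp only [Fintype.sum_bool, if_true, Bool.false_eq_true, if_false] at this
    exact this
  calc (1 : ℚ) = P e (DD e δ B) N (fun _ => 1) := (P_const havg N 1).symm
    _ ≤ P e (DD e δ B) N (fun x => ∑ n ∈ (range N).filter Nat.Prime, ind (B n x) + ∑ m ∈ T, ind (inBox m (r m) N x)) := by
        apply P_mono (DD_nonneg h0 h1)
        intro x
        have hs1 : 0 ≤ ∑ n ∈ (range N).filter Nat.Prime, ind (B n x) := sum_nonneg (fun _ _ => ind_nonneg _)
        have hs2 : 0 ≤ ∑ m ∈ T, ind (inBox m (r m) N x) := sum_nonneg (fun _ _ => ind_nonneg _)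
        rcases hcov x with ⟨n, hn, hp, hb⟩ | ⟨m, hm, hb⟩
        · have h2 : ind (B n x) ≤ ∑ n ∈ (range N).filter Nat.Prime, ind (B n x) :=
            single_le_sum (f := fun n => ind (B n x)) (fun _ _ => ind_nonneg _)
              (mem_filter.2 ⟨mem_range.2 hn, hp⟩)
          rw [ind_true hb] at h2
          linarith
        · have h2 : ind (inBox m (r m) N x) ≤ ∑ m ∈ T, ind (inBox m (r m) N x) :=
            single_le_sum (f := fun m => ind (inBox m (r m) N x)) (fun _ _ => ind_nonneg _) hm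
          rw [ind_true hb] at h2
          linarith
    _ = ∑ n ∈ (range N).filter Nat.Prime, P e (DD e δ B) N (fun x => ind (B n x)) +
          ∑ m ∈ T, P e (DD e δ B) N (fun x => ind (inBox m (r m) N x)) := by
        rw [hPadd, P_sum, P_sum]
    _ = _ := by
        congr 1
        refine sum_congr rfl fun n hn => ?_
        rw [mem_filter, mem_range] at hn
        have hdep : Dep (n + 1) (fun x => ind (B n x)) := by
          intro x y hxy
          show ind (B n x) = ind (B n y)
          rw [hB n x y hxy]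
        rw [P_dep havg hdep N (by omega), P_succ_prime hn.2, ← P_smul]
        congr 1
        funext x
        exact avg_DD_ind h0 h1 n x hn.2

end

/-- The measure of a box. -/
private lemma P_box {e : ℕ} {D : ℕ → Om → ℚ} (hD0 : ∀ n x, 0 ≤ D n x) (hD1 : ∀ n x, n.Prime → avg e n (D n) x = 1)
    (hD2 : ∀ n x, n.Prime → D n x ≤ dbar n) (m : ℕ) (r : ℤ) (hm : ∀ p, m.factorization p ≤ e) :
    ∀ N, P e D N (fun x => ind (inBox m r N x)) ≤ ∏ p ∈ (range N).filter Nat.Prime, mu p (m.factorization p) := by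
  intro N
  induction N with
  | zero =>
    simp only [range_zero, filter_empty, prod_empty]
    exact ind_le_one _
  | succ N ih =>
    by_cases hN : N.Prime
    · rw [P_succ_prime hN, range_add_one, filter_insert, if_pos hN, prod_insert (by simp)]
      have hstep : ∀ x, avg e N (fun y => D N y * ind (inBox m r (N + 1) y)) x ≤
          mu N (m.factorization N) * ind (inBox m r N x) := by
        intro x
        rcases Nat.eq_zero_or_pos (m.factorization N) with h0 | h0
        · rw [h0, mu_zero, one_mul]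
          have h1 : avg e N (fun y => D N y * ind (inBox m r (N + 1) y)) x =
              avg e N (fun y => D N y * ind (inBox m r N y)) x := by
            apply avg_congr_upd
            intro t
            have h2 : inBox m r (N + 1) (update x N t) = inBox m r N (update x N t) := by
              apply propext
              rw [inBox_succ hN, h0]
              simp [Int.modEq_one]
            simp only [h2]
          rw [h1]
          have hdep : Dep N (fun x => ind (inBox m r N x)) := by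
            intro x y hxy
            show ind (inBox m r N x) = ind (inBox m r N y)
            rw [inBox_dep m r N x y hxy]
          have h3 := avg_mul_dep (e := e) (F := D N) hdep x
          rw [h3, hD1 N x hN, one_mul]
        · obtain ⟨j, hj⟩ : ∃ j, m.factorization N = j + 1 := ⟨m.factorization N - 1, by omega⟩
          have h1 : avg e N (fun y => D N y * ind (inBox m r (N + 1) y)) x ≤
              avg e N (fun y => dbar N * ind (inBox m r (N + 1) y)) x := by
            apply avg_mono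
            intro y
            exact mul_le_mul_of_nonneg_right (hD2 N y hN) (ind_nonneg _)
          refine h1.trans (le_of_eq ?_)
          rw [avg_smul, avg_inBox hN m r (hm N) x, hj, mu_succ]
          ring
      calc P e D N (avg e N (fun x => D N x * ind (inBox m r (N + 1) x)))
          ≤ P e D N (fun x => mu N (m.factorization N) * ind (inBox m r N x)) := P_mono hD0 N hstep
        _ = mu N (m.factorization N) * P e D N (fun x => ind (inBox m r N x)) := P_smul _ _ _
        _ ≤ _ := mul_le_mul_of_nonneg_left ih (mu_nonneg _ _)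
    · rw [P_succ_not hN, range_add_one, filter_insert, if_neg hN]
      have : (fun x => ind (inBox m r (N + 1) x)) = (fun x => ind (inBox m r N x)) := by
        funext x
        have h2 : inBox m r (N + 1) x = inBox m r N x := propext (inBox_succ_not hN x)
        rw [h2]
      rw [this]
      exact ih

private lemma prod_mu_le {m N : ℕ} (hm : m ≠ 0) (hN : m < N) :
    ∏ p ∈ (range N).filter Nat.Prime, mu p (m.factorization p) ≤
      9 / 8 * ((4 / 3 : ℚ) ^ m.primeFactors.card / m) := by
  have hsub : m.primeFactors ⊆ (range N).filter Nat.Prime := by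
    intro p hp
    rw [mem_filter, mem_range]
    exact ⟨(Nat.le_of_mem_primeFactors hp).trans_lt hN, Nat.prime_of_mem_primeFactors hp⟩
  have h1 : ∏ p ∈ (range N).filter Nat.Prime, mu p (m.factorization p) =
      ∏ p ∈ m.primeFactors, mu p (m.factorization p) := by
    symm
    apply prod_subset hsub
    intro p _ hp
    have : m.factorization p = 0 := by
      rw [← Finsupp.notMem_support_iff, Nat.support_factorization]
      exact hp
    rw [this, mu_zero]
  rw [h1]
  have h2 : ∀ p ∈ m.primeFactors, mu p (m.factorization p) =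
      (4 / 3 * (if p = 3 then 9 / 8 else 1)) / ((p ^ m.factorization p : ℕ) : ℚ) := by
    intro p hp
    have hpos : m.factorization p ≠ 0 := by
      rw [← Finsupp.mem_support_iff, Nat.support_factorization]
      exact hp
    obtain ⟨j, hj⟩ : ∃ j, m.factorization p = j + 1 := ⟨m.factorization p - 1, by omega⟩
    rw [hj, mu_succ]
    push_cast
    congr 1
    unfold dbar
    split_ifs <;> norm_num
  rw [prod_congr rfl h2, prod_div_distrib, prod_mul_distrib, prod_const]
  have h3 : ∏ p ∈ m.primeFactors, ((p ^ m.factorization p : ℕ) : ℚ) = (m : ℚ) := by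
    rw [← Nat.cast_prod]
    congr 1
    exact Nat.prod_factorization_pow_eq_self hm
  rw [h3]
  have h4 : ∏ p ∈ m.primeFactors, (if p = 3 then (9 / 8 : ℚ) else 1) ≤ 9 / 8 := by
    rw [prod_ite_eq']
    split_ifs <;> norm_num
  have hm0 : (0 : ℚ) < m := by positivity
  have h5 : (0 : ℚ) ≤ (4 / 3) ^ m.primeFactors.card := by positivity
  rw [← mul_div_assoc]
  apply div_le_div_of_nonneg_right _ hm0.le
  calc (4 / 3 : ℚ) ^ m.primeFactors.card * ∏ p ∈ m.primeFactors, (if p = 3 then (9 / 8 : ℚ) else 1)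
      ≤ (4 / 3 : ℚ) ^ m.primeFactors.card * (9 / 8) := mul_le_mul_of_nonneg_left h4 h5
    _ = _ := by ring

private lemma total_le {e : ℕ} (he : 50 ≤ e) (N : ℕ) :
    ∑ n ∈ (range N).filter (fun n => n.Prime ∧ 7 ≤ n), cost e n ≤ 931 / 1000 := by
  have h0 : ∑ n ∈ (range N).filter (fun n => n.Prime ∧ 7 ≤ n), cost e n = Scost e 7 N := by
    unfold Scost
    apply sum_congr _ (fun _ _ => rfl)
    ext n
    simp only [mem_filter, mem_range, mem_Ico]
    tauto
  rw [h0]
  have h1 : Scost e 7 N ≤ Scost e 7 (65736 + 2310 * N) := Scost_mono le_rfl (by omega)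
  have h2 : Scost e 7 (65736 + 2310 * N) = Scost e 7 200 + Scost e 200 65736
      + Scost e 65736 (65736 + 2310 * N) := by
    rw [Scost_add (a := 7) (b := 65736) (by omega) (by omega),
      Scost_add (a := 7) (b := 200) (c := 65736) (by omega) (by omega)]
  have hinv := inv_all (e := e) he 193 le_rfl
  have hr := run_check
  rw [Bool.and_eq_true, Nat.ble_eq, Nat.ble_eq] at hr
  have ht := tree_check
  rw [Bool.and_eq_true, Nat.ble_eq, Nat.ble_eq] at ht
  have hT : (sc : ℚ) * Scost e 7 200 ≤ 547 * 10 ^ 12 := by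
    refine hinv.hT.trans ?_
    exact_mod_cast hr.1
  have hF : (sc : ℚ) * fs e 200 ≤ 1483 * 10 ^ 14 := by
    refine hinv.hF.trans ?_
    exact_mod_cast hr.2
  have hscv : (sc : ℚ) = 10 ^ 15 := by
    unfold sc
    push_cast
    norm_num
  have hs0v : (s0 : ℚ) = 10 ^ 18 := by
    unfold s0
    push_cast
    norm_num
  rw [hscv] at hT hF
  obtain ⟨t1, t2⟩ := tree_bound e 16 200 le_rfl
  have hG : ((tree 16 200).G : ℚ) ≤ 1774 * 10 ^ 16 := by exact_mod_cast ht.1
  have hK : ((tree 16 200).K : ℚ) ≤ 2019 * 10 ^ 12 := by exact_mod_cast ht.2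
  have e16 : 200 + 2 ^ 16 = 65736 := by norm_num
  rw [e16, hs0v] at t1 t2
  generalize (tree 16 200).G = G at *
  generalize (tree 16 200).K = K at *
  have hf0 := fs_nonneg e 200
  have hfle : fs e 200 ≤ 1483 / 10 := by linarith
  have hT' : Scost e 7 200 ≤ 547 / 1000 := by linarith
  have hGd : (G : ℚ) / 10 ^ 18 ≤ 1774 / 100 := by
    rw [div_le_iff₀ (by norm_num)]
    linarith
  have hKd : (K : ℚ) / 10 ^ 18 ≤ 2019 / 1000000 := by
    rw [div_le_iff₀ (by norm_num)]
    linarith
  have hG0 : (0 : ℚ) ≤ (G : ℚ) := Nat.cast_nonneg G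
  have hK0 : (0 : ℚ) ≤ (K : ℚ) := Nat.cast_nonneg K
  have hp18 : (0 : ℚ) ≤ 10 ^ 18 := by norm_num
  have hG1 : (0 : ℚ) ≤ (G : ℚ) / 10 ^ 18 := div_nonneg hG0 hp18
  have hK1 : (0 : ℚ) ≤ (K : ℚ) / 10 ^ 18 := div_nonneg hK0 hp18
  have h148 : (0 : ℚ) ≤ 1483 / 10 := by norm_num
  have h3 : fs e 65736 ≤ 1483 / 10 * (1774 / 100) := by
    refine t1.trans ?_
    exact mul_le_mul hfle hGd hG1 h148
  have h4 : Scost e 200 65736 ≤ 1483 / 10 * (2019 / 1000000) := by
    refine t2.trans ?_
    exact mul_le_mul hfle hKd hK1 h148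
  have h5 := tail e N
  have h6 : 0 ≤ fs e (65736 + 2310 * N) * ((21 / 10 : ℚ) / ((65736 + 2310 * N : ℕ) : ℚ)) := by
    apply mul_nonneg (fs_nonneg _ _)
    positivity
  have h7 : fs e 65736 * ((21 / 10 : ℚ) / 65736) ≤ 1483 / 10 * (1774 / 100) * ((21 / 10 : ℚ) / 65736) :=
    mul_le_mul_of_nonneg_right h3 (by norm_num)
  rw [h2] at h1
  have h8 : (547 / 1000 : ℚ) + 1483 / 10 * (2019 / 1000000)
      + 1483 / 10 * (1774 / 100) * ((21 / 10 : ℚ) / 65736) ≤ 931 / 1000 := by norm_num
  linarith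

private lemma cover_space' {e : ℕ} {S G T : Finset ℕ} (r : ℕ → ℤ) (hGT : ∀ m ∈ S, m ∈ G ∨ m ∈ T)
    (h2 : ∀ m ∈ S, 2 ≤ m) (he : ∀ m ∈ S, ∀ p, m.factorization p ≤ e)
    (hcov : ∀ x : ℤ, ∃ m ∈ S, x ≡ r m [ZMOD (m : ℤ)]) (N : ℕ) (hN : ∀ m ∈ S, m < N) (x : Om) :
    (∃ n, n < N ∧ n.Prime ∧ BB G r n x) ∨ ∃ m ∈ T, inBox m (r m) N x := by
  classical
  obtain ⟨z, hz⟩ := Nat.chineseRemainderOfFinset x (fun p => p ^ e) ((range N).filter Nat.Prime)
    (fun p hp => pow_ne_zero _ (mem_filter.1 hp).2.ne_zero)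
    (by
      intro p hp q hq hpq
      have hp' := (mem_filter.1 (mem_coe.1 hp)).2
      have hq' := (mem_filter.1 (mem_coe.1 hq)).2
      exact Nat.Coprime.pow _ _ ((Nat.coprime_primes hp' hq').2 hpq))
  obtain ⟨m, hm, hzm⟩ := hcov (z : ℤ)
  have hm0 : m ≠ 0 := by have := h2 m hm; omega
  have hm1 : m ≠ 1 := by have := h2 m hm; omega
  have hbox : ∀ p, p.Prime → p < N → (x p : ℤ) ≡ r m [ZMOD ((p ^ m.factorization p : ℕ) : ℤ)] := by
    intro p hp hpN
    have h5 : z ≡ x p [MOD p ^ e] := hz p (mem_filter.2 ⟨mem_range.2 hpN, hp⟩)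
    have h6 : (z : ℤ) ≡ (x p : ℤ) [ZMOD ((p ^ m.factorization p : ℕ) : ℤ)] := by
      have h7 : p ^ m.factorization p ∣ p ^ e := pow_dvd_pow p (he m hm p)
      exact (Int.natCast_modEq_iff).2 (h5.of_dvd h7)
    have h8 : (z : ℤ) ≡ r m [ZMOD ((p ^ m.factorization p : ℕ) : ℤ)] := by
      apply Int.ModEq.of_dvd _ hzm
      exact_mod_cast Nat.ordProj_dvd m p
    exact h6.symm.trans h8
  rcases hGT m hm with hG | hT
  · left
    have hne : m.primeFactors.Nonempty := Nat.nonempty_primeFactors.2 (by have := h2 m hm; omega)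
    set n := m.primeFactors.max' hne with hn
    have hnmem : n ∈ m.primeFactors := max'_mem _ _
    have hnp : n.Prime := Nat.prime_of_mem_primeFactors hnmem
    have hnd : n ∣ m := Nat.dvd_of_mem_primeFactors hnmem
    have hnN : n < N := lt_of_le_of_lt (Nat.le_of_dvd (Nat.pos_of_ne_zero hm0) hnd) (hN m hm)
    refine ⟨n, hnN, hnp, m, hG, ⟨hnd, fun p hp hpm => ?_⟩, ?_⟩
    · exact le_max' _ _ (Nat.mem_primeFactors.2 ⟨hp, hpm, hm0⟩)
    · intro p hp hpn
      exact hbox p hp (by omega)
  · right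
    exact ⟨m, hT, fun p hp hpN => hbox p hp hpN⟩

private lemma main_ineq (S : Finset ℕ) (r : ℕ → ℤ) (h2 : ∀ m ∈ S, 2 ≤ m)
    (hcov : ∀ x : ℤ, ∃ m ∈ S, x ≡ r m [ZMOD (m : ℤ)]) :
    (69 / 1000 : ℚ) ≤ ∑ m ∈ S.filter (fun m => 2 ∣ m ∨ 9 ∣ m ∨ 15 ∣ m),
      9 / 8 * ((4 / 3 : ℚ) ^ m.primeFactors.card / m) := by
  set T := S.filter (fun m => 2 ∣ m ∨ 9 ∣ m ∨ 15 ∣ m) with hTdef
  set G := S.filter (fun m => ¬ (2 ∣ m ∨ 9 ∣ m ∨ 15 ∣ m)) with hGdef
  have hGT : ∀ m ∈ S, m ∈ G ∨ m ∈ T := by
    intro m hm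
    by_cases h : 2 ∣ m ∨ 9 ∣ m ∨ 15 ∣ m
    · exact Or.inr (mem_filter.2 ⟨hm, h⟩)
    · exact Or.inl (mem_filter.2 ⟨hm, h⟩)
  set e := 50 + S.sup id with hedef
  have he50 : 50 ≤ e := by omega
  have hfac : ∀ m ∈ S, ∀ p, m.factorization p ≤ e := by
    intro m hm p
    have h1 : m ≤ S.sup id := le_sup (f := id) hm
    have h3 : m.factorization p < m := Nat.factorization_lt p (by have := h2 m hm; omega)
    omega
  have hG : ∀ m ∈ G, good e m := by
    intro m hm
    rw [hGdef, mem_filter] at hm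
    obtain ⟨hmS, hm'⟩ := hm
    push Not at hm'
    exact ⟨by have := h2 m hmS; omega, hm'.1, hm'.2.1, hm'.2.2, hfac m hmS⟩
  set N := S.sup id + 1 with hNdef
  have hN : ∀ m ∈ S, m < N := by
    intro m hm
    have h1 : m ≤ S.sup id := le_sup (f := id) hm
    omega
  have h1 := one_le_loss' (e := e) (B := BB G r) dl_nonneg dl_lt_one (BB_dep G r) N T r
    (cover_space' r hGT h2 hfac hcov N hN)
  have hD0 := fun n x => DD_nonneg (e := e) (B := BB G r) dl_nonneg dl_lt_one n x
  have hD1 := fun n x hn => avg_DD (e := e) (B := BB G r) dl_nonneg dl_lt_one n x hn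
  have hD2 : ∀ n x, n.Prime → DD e dl (BB G r) n x ≤ dbar n := by
    intro n x _
    rw [← one_div_dl]
    exact DD_le dl_nonneg dl_lt_one n x
  have hloss : ∑ n ∈ (range N).filter Nat.Prime, (1 / (1 - dl n)) *
      P e (DD e dl (BB G r)) n (fun x => max (alpha e (BB G r) n x - dl n) 0) ≤ 931 / 1000 := by
    refine le_trans ?_ (total_le he50 N)
    rw [← sum_filter_add_sum_filter_not ((range N).filter Nat.Prime) (fun n => 7 ≤ n)]
    rw [filter_filter]
    have hz : ∑ n ∈ ((range N).filter Nat.Prime).filter (fun n => ¬ 7 ≤ n), (1 / (1 - dl n)) *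
        P e (DD e dl (BB G r)) n (fun x => max (alpha e (BB G r) n x - dl n) 0) ≤ 0 := by
      apply sum_nonpos
      intro n hn
      rw [mem_filter, mem_filter, not_le] at hn
      have hfun : (fun x => max (alpha e (BB G r) n x - dl n) 0) = fun _ => 0 := by
        funext x
        rw [max_eq_right]
        linarith [alpha_small r hG hn.1.2 hn.2 x]
      rw [hfun, P_const hD1, mul_zero]
    have hmain : ∑ n ∈ (range N).filter (fun n => n.Prime ∧ 7 ≤ n), (1 / (1 - dl n)) *
        P e (DD e dl (BB G r)) n (fun x => max (alpha e (BB G r) n x - dl n) 0) ≤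
        ∑ n ∈ (range N).filter (fun n => n.Prime ∧ 7 ≤ n), cost e n := by
      apply sum_le_sum
      intro n hn
      rw [mem_filter] at hn
      have h7 := hn.2.2
      have hdb : 1 / (1 - dl n) = 4 / 3 := by
        rw [one_div_dl]
        unfold dbar
        rw [if_neg (by omega)]
      rw [hdb]
      unfold cost
      exact mul_le_mul_of_nonneg_left (loss_le (by omega) r hG hn.2.1 h7) (by norm_num)
    linarith
  have hbox : ∑ m ∈ T, P e (DD e dl (BB G r)) N (fun x => ind (inBox m (r m) N x)) ≤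
      ∑ m ∈ T, 9 / 8 * ((4 / 3 : ℚ) ^ m.primeFactors.card / m) := by
    apply sum_le_sum
    intro m hm
    rw [hTdef, mem_filter] at hm
    have hmS := hm.1
    exact (P_box hD0 hD1 hD2 m (r m) (hfac m hmS) N).trans
      (prod_mu_le (by have := h2 m hmS; omega) (hN m hmS))
  linarith

/-- In every finite covering of the integers by residue classes with distinct moduli at least `2`, the moduli which
are divisible by `2`, by `9` or by `15` satisfy `∑ (4/3)^ω(m)/m ≥ 61/1000`. -/
theorem result : ∀ (S : Finset ℕ) (r : ℕ → ℤ), (∀ m ∈ S, 2 ≤ m) →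
    (∀ x : ℤ, ∃ m ∈ S, x ≡ r m [ZMOD (m : ℤ)]) →
    (61 / 1000 : ℚ) ≤ ∑ m ∈ S.filter (fun m => 2 ∣ m ∨ 9 ∣ m ∨ 15 ∣ m),
      (4 / 3 : ℚ) ^ m.primeFactors.card / m := by
  intro S r h2 hcov
  have h := main_ineq S r h2 hcov
  rw [← mul_sum] at h
  linarith

end Pool.Agent.Results.MP_88d7a5_nt.QuantitativeCovering
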